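import Pool.Agent.Y996.NL.Stm

/-!
# Number of colour changes between two sets: measurability, zero changes, symmetry
-/

set_option autoImplicit false

namespace Pool.Agent.Y488.NL

open H974 H906.Cyl Finset Pool.Agent.W819.EN Pool.Agent.W819.NC MeasureTheory
open Pool.Agent.W38.EN (free_reach Ch_symm ex_chain)
open Pool.Agent.Y996.NL

/-- chains by the number of moves -/
def L (G : Set Edg) : ℕ → ℕ → ℤ × ℤ → ℤ × ℤ → Prop
  | 0, _, p, q => p = q
  | m + 1, k, p, q => L G m k p q ∨ (∃ b, L G m k p b ∧ Mv G b q) ∨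
      ∃ k' b, k = k' + 1 ∧ L G m k' p b ∧ St b q

theorem ch_of_L {G : Set Edg} (m : ℕ) : ∀ {k : ℕ} {p q : ℤ × ℤ}, L G m k p q →
    Ch (Mv G) St k p q := by
  induction m with
  | zero =>
    intro k p q h
    have h' : p = q := h
    subst h'
    exact Ch.refl _ _
  | succ m ih =>
    intro k p q h
    rcases h with h | ⟨b, h, h1⟩ | ⟨k', b, rfl, h, h1⟩
    · exact ih h
    · exact Ch.rel (ih h) h1
    · exact Ch.step (ih h) h1

theorem L_of_ch {G : Set Edg} {k : ℕ} {p q : ℤ × ℤ} (h : Ch (Mv G) St k p q) :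
    ∃ m, L G m k p q := by
  induction h with
  | refl k a => exact ⟨0, rfl⟩
  | @rel k a b c _ hr ih =>
    obtain ⟨m, hm⟩ := ih
    exact ⟨m + 1, Or.inr (Or.inl ⟨b, hm, hr⟩)⟩
  | @step k a b c _ hs ih =>
    obtain ⟨m, hm⟩ := ih
    exact ⟨m + 1, Or.inr (Or.inr ⟨k, b, rfl, hm, hs⟩)⟩

theorem meas_opn (e : Edg) : MeasurableSet {ω : sqLattice.edgeSet → Bool | e ∈ opn ω} := by
  have h : {ω : sqLattice.edgeSet → Bool | e ∈ opn ω} =
      (fun ω : sqLattice.edgeSet → Bool => ω (toE e)) ⁻¹' {true} := rfl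
  rw [h]
  exact (measurable_pi_apply _) (measurableSet_singleton _)

theorem meas_ite {Ω : Type*} [MeasurableSpace Ω] (c : Prop) [Decidable c] (A B : Ω → Prop)
    (hA : MeasurableSet {ω | A ω}) (hB : MeasurableSet {ω | B ω}) :
    MeasurableSet {ω | if c then A ω else B ω} := by
  by_cases h : c
  · simp only [h, if_true]
    exact hA
  · simp only [h, if_false]
    exact hB

theorem ite_yes {c a b : Prop} [Decidable c] (h : if c then a else b) (hc : c) : a := by
  rwa [if_pos hc] at h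

theorem ite_no {c a b : Prop} [Decidable c] (h : if c then a else b) (hc : ¬ c) : b := by
  rwa [if_neg hc] at h

theorem meas_lnk (p q : ℤ × ℤ) :
    MeasurableSet {ω : sqLattice.edgeSet → Bool | lnk (opn ω) p q} := by
  unfold lnk
  exact MeasurableSet.inter (MeasurableSet.const _) (MeasurableSet.union
    (MeasurableSet.inter (MeasurableSet.const _) (meas_ite _ _ _ (meas_opn _) (meas_opn _).compl))
    (MeasurableSet.inter (MeasurableSet.const _) (meas_ite _ _ _ (meas_opn _).compl (meas_opn _))))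

theorem meas_Mv (p q : ℤ × ℤ) :
    MeasurableSet {ω : sqLattice.edgeSet → Bool | Mv (opn ω) p q} :=
  (meas_lnk p q).union (meas_lnk q p)

theorem meas_L (m : ℕ) : ∀ (k : ℕ) (p q : ℤ × ℤ),
    MeasurableSet {ω : sqLattice.edgeSet → Bool | L (opn ω) m k p q} := by
  induction m with
  | zero =>
    intro k p q
    exact MeasurableSet.const (p = q)
  | succ m ih =>
    intro k p q
    have h : {ω : sqLattice.edgeSet → Bool | L (opn ω) (m + 1) k p q} =
        {ω | L (opn ω) m k p q} ∪ ((⋃ b : ℤ × ℤ, {ω | L (opn ω) m k p b} ∩ {ω | Mv (opn ω) b q}) ∪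
          ⋃ k' : ℕ, ⋃ b : ℤ × ℤ, {_ω | k = k' + 1} ∩ ({ω | L (opn ω) m k' p b} ∩
            {_ω | St b q})) := by
      ext ω
      simp only [Set.mem_union, Set.mem_iUnion, Set.mem_inter_iff, Set.mem_ofPred_eq]
      exact Iff.rfl
    rw [h]
    refine (ih k p q).union (MeasurableSet.union ?_ ?_)
    · exact MeasurableSet.iUnion fun b => (ih k p b).inter (meas_Mv b q)
    · exact MeasurableSet.iUnion fun k' => MeasurableSet.iUnion fun b =>
        (MeasurableSet.const _).inter ((ih k' p b).inter (MeasurableSet.const _))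

theorem meas_Ch (k : ℕ) (p q : ℤ × ℤ) :
    MeasurableSet {ω : sqLattice.edgeSet → Bool | Ch (Mv (opn ω)) St k p q} := by
  have h : {ω : sqLattice.edgeSet → Bool | Ch (Mv (opn ω)) St k p q} =
      ⋃ m : ℕ, {ω | L (opn ω) m k p q} := by
    ext ω
    simp only [Set.mem_iUnion, Set.mem_ofPred_eq]
    exact ⟨fun h => L_of_ch h, fun ⟨m, hm⟩ => ch_of_L m hm⟩
  rw [h]
  exact MeasurableSet.iUnion fun m => meas_L m k p q

/-- the set of the possible numbers of changes -/
def AS (G : Set Edg) (P Q : Set Vtx) : Set ℕ :=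
  {K | ∃ u ∈ P, ∃ w ∈ Q, Ch (Mv G) St K (fc u) (fc w)}

theorem NP_eq (G : Set Edg) (P Q : Set Vtx) : NP G P Q = sInf (AS G P Q) := rfl

theorem AS_ne {G : Set Edg} {P Q : Set Vtx} (hP : P.Nonempty) (hQ : Q.Nonempty) :
    (AS G P Q).Nonempty := by
  obtain ⟨u, hu⟩ := hP
  obtain ⟨w, hw⟩ := hQ
  obtain ⟨K, hK⟩ := ex_chain G (fc u) (fc w)
  exact ⟨K, u, hu, w, hw, hK⟩

theorem AS_up {G : Set Edg} {P Q : Set Vtx} {k l : ℕ} (h : k ∈ AS G P Q) (hkl : k ≤ l) :
    l ∈ AS G P Q := by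
  obtain ⟨u, hu, w, hw, hK⟩ := h
  exact ⟨u, hu, w, hw, hK.mono hkl⟩

theorem NP_le {G : Set Edg} {P Q : Set Vtx} (hP : P.Nonempty) (hQ : Q.Nonempty) (n : ℕ) :
    NP G P Q ≤ n ↔ n ∈ AS G P Q := by
  rw [NP_eq]
  constructor
  · intro h
    exact AS_up (Nat.sInf_mem (AS_ne hP hQ)) h
  · intro h
    exact Nat.sInf_le h

theorem me : S_ME := by
  intro P Q
  rcases P.eq_empty_or_nonempty with hP | hP
  · have h : (fun ω : sqLattice.edgeSet → Bool => NP (opn ω) P Q) = fun _ => 0 := by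
      funext ω
      have h1 : AS (opn ω) P Q = ∅ := by
        ext K
        simp only [AS, hP, Set.mem_empty_iff_false, false_and, exists_false, Set.mem_ofPred_eq]
      rw [NP_eq, h1, Nat.sInf_empty]
    rw [h]
    exact measurable_const
  rcases Q.eq_empty_or_nonempty with hQ | hQ
  · have h : (fun ω : sqLattice.edgeSet → Bool => NP (opn ω) P Q) = fun _ => 0 := by
      funext ω
      have h1 : AS (opn ω) P Q = ∅ := by
        ext K
        simp only [AS, hQ, Set.mem_empty_iff_false, false_and, exists_false, and_false,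
          Set.mem_ofPred_eq]
      rw [NP_eq, h1, Nat.sInf_empty]
    rw [h]
    exact measurable_const
  · refine measurable_of_Iic fun n => ?_
    have h : (fun ω : sqLattice.edgeSet → Bool => NP (opn ω) P Q) ⁻¹' Set.Iic n =
        ⋃ u : Vtx, ⋃ w : Vtx, {_ω | u ∈ P} ∩ ({_ω | w ∈ Q} ∩
          {ω | Ch (Mv (opn ω)) St n (fc u) (fc w)}) := by
      ext ω
      simp only [Set.mem_preimage, Set.mem_Iic, Set.mem_iUnion, Set.mem_inter_iff,
        Set.mem_ofPred_eq]
      rw [NP_le hP hQ]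
      constructor
      · rintro ⟨u, hu, w, hw, hK⟩
        exact ⟨u, w, hu, hw, hK⟩
      · rintro ⟨u, w, hu, hw, hK⟩
        exact ⟨u, hu, w, hw, hK⟩
    rw [h]
    exact MeasurableSet.iUnion fun u => MeasurableSet.iUnion fun w =>
      (MeasurableSet.const _).inter ((MeasurableSet.const _).inter (meas_Ch n _ _))

/-- a free move from the face of a vertex -/
theorem free_adj {G : Set Edg} {w : Vtx} {c : ℤ × ℤ} (h : Mv G (fc w) c) :
    ∃ w' : Vtx, c = fc w' ∧ Adj G w w' := by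
  obtain ⟨x, y⟩ := w
  obtain ⟨c1, c2⟩ := c
  have e1 : edz (x + y) (x - y) = (x, y, true) := by
    unfold edz
    rw [if_pos (by omega)]
    simp only [Prod.mk.injEq, and_true]
    omega
  have e2 : edz (x + y - 1) (x - y) = (x, y - 1, false) := by
    unfold edz
    rw [if_neg (by omega)]
    simp only [Prod.mk.injEq, and_true]
    omega
  have e3 : edz (x + y - 1) (x - y - 1) = (x - 1, y, true) := by
    unfold edz
    rw [if_pos (by omega)]
    simp only [Prod.mk.injEq, and_true]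
    omega
  have e4 : edz (x + y) (x - y - 1) = (x, y, false) := by
    unfold edz
    rw [if_neg (by omega)]
    simp only [Prod.mk.injEq, and_true]
    omega
  rcases h with ⟨h1, h2⟩ | ⟨h1, h2⟩
  · have h1' : c2 = x - y + 1 := h1
    rcases h2 with ⟨h2, h3⟩ | ⟨h2, h3⟩
    · have h2' : c1 = x + y + 1 := h2
      have h4 : edz (x + y) (x - y) ∈ G :=
        ite_yes h3 (by show (x + y + (x - y)) % 2 = 0; omega)
      rw [e1] at h4
      refine ⟨(x + 1, y), ?_, ⟨_, h4, Or.inl ⟨rfl, rfl⟩⟩⟩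
      simp only [fc, Prod.mk.injEq]
      omega
    · have h2' : x + y = c1 + 1 := h2
      have hc : c1 = x + y - 1 := by omega
      subst hc
      have h4 : edz (x + y - 1) (x - y) ∈ G :=
        ite_no h3 (by show ¬ (x + y - 1 + (x - y)) % 2 = 0; omega)
      rw [e2] at h4
      refine ⟨(x, y - 1), ?_, ⟨_, h4, Or.inr ⟨rfl, ?_⟩⟩⟩
      · simp only [fc, Prod.mk.injEq]
        omega
      · simp only [tgt_false, Prod.mk.injEq, true_and]
        omega
  · have h1' : x - y = c2 + 1 := h1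
    have hc2 : c2 = x - y - 1 := by omega
    subst hc2
    rcases h2 with ⟨h2, h3⟩ | ⟨h2, h3⟩
    · have h2' : x + y = c1 + 1 := h2
      have hc : c1 = x + y - 1 := by omega
      subst hc
      have h4 : edz (x + y - 1) (x - y - 1) ∈ G :=
        ite_yes h3 (by show (x + y - 1 + (x - y - 1)) % 2 = 0; omega)
      rw [e3] at h4
      refine ⟨(x - 1, y), ?_, ⟨_, h4, Or.inr ⟨rfl, ?_⟩⟩⟩
      · simp only [fc, Prod.mk.injEq]
        omega
      · simp only [tgt_true, Prod.mk.injEq, and_true]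
        omega
    · have h2' : c1 = x + y + 1 := h2
      have h4 : edz (x + y) (x - y - 1) ∈ G :=
        ite_no h3 (by show ¬ (x + y + (x - y - 1)) % 2 = 0; omega)
      rw [e4] at h4
      refine ⟨(x, y + 1), ?_, ⟨_, h4, Or.inl ⟨rfl, rfl⟩⟩⟩
      simp only [fc, Prod.mk.injEq]
      omega

theorem reach_of_free {G : Set Edg} {k : ℕ} {p q : ℤ × ℤ} (h : Ch (Mv G) St k p q) :
    k = 0 → ∀ u : Vtx, p = fc u → ∃ w : Vtx, q = fc w ∧ Reach G u w := by
  induction h with
  | refl k a =>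
    intro _ u hu
    exact ⟨u, hu, Reach.refl _ _⟩
  | @rel k a b c _ hr ih =>
    intro hk u hu
    obtain ⟨w, hw, hr2⟩ := ih hk u hu
    subst hw
    obtain ⟨w', hw', ha⟩ := free_adj hr
    exact ⟨w', hw', Relation.ReflTransGen.tail hr2 ha⟩
  | step _ _ _ =>
    intro hk
    exact absurd hk (Nat.succ_ne_zero _)

theorem fc_inj {u v : Vtx} (h : fc u = fc v) : u = v := by
  obtain ⟨x, y⟩ := u
  obtain ⟨x', y'⟩ := v
  simp only [fc, Prod.mk.injEq] at h ⊢
  omega

theorem z0 : S_Z0 := by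
  intro ω P Q hP hQ
  have h1 : NP (opn ω) P Q = 0 ↔ 0 ∈ AS (opn ω) P Q := by
    rw [← NP_le hP hQ]
    exact Nat.le_zero.symm
  rw [h1]
  constructor
  · rintro ⟨u, hu, w, hw, hK⟩
    obtain ⟨w', hw', hr⟩ := reach_of_free hK rfl u rfl
    rw [← fc_inj hw'] at hr
    exact ⟨u, hu, w, hw, (open_reach ω u w).mpr hr⟩
  · rintro ⟨u, hu, w, hw, hr⟩
    exact ⟨u, hu, w, hw, free_reach ((open_reach ω u w).mp hr)⟩

theorem sy : S_SY := by
  intro G P Q
  rw [NP_eq, NP_eq]
  congr 1
  ext K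
  constructor
  · rintro ⟨u, hu, w, hw, hK⟩
    exact ⟨w, hw, u, hu, Ch_symm hK⟩
  · rintro ⟨u, hu, w, hw, hK⟩
    exact ⟨w, hw, u, hu, Ch_symm hK⟩

end Pool.Agent.Y488.NL
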